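import Pool.Agent.Helper95.Lin.Basics
import Pool.Agent.Helper95.Lin.GoalsA
import Pool.Agent.Helper95.Lin.GoalsF
import Pool.Agent.Helper95.Lin.GoalsI

/-!
# Packet NOSS: the semisimple part is trivial
-/

open Complex Metric Set Filter Topology MeasureTheory
open scoped ContDiff ComplexConjugate ComplexOrder

namespace Pool.Agent.Helper88.Lin

open Pool.Agent.Helper95.Lin Pool.Agent.Helper16.Abund

theorem sz_mono {n : ℕ} {Γ : Type} [Group Γ] {T : Γ → Cn n → Cn n} {z₀ : Cn n} {r r' d d' : ℝ}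
    {γ : Γ} (h : Sz T z₀ r d γ) (hr : r' ≤ r) (hd : d ≤ d') : Sz T z₀ r' d' γ := fun x hx =>
  ⟨((h x (ball_subset_ball hr hx)).1).trans hd, ((h x (ball_subset_ball hr hx)).2).trans hd⟩

theorem words_inv {p N : ℕ} {Γ : Type} [Group Γ] {γ : Fin p → Γ} {δ : Γ} (h : δ ∈ Words N γ) :
    δ⁻¹ ∈ Words N γ := by
  obtain ⟨l, hl, rfl⟩ := h
  refine ⟨(l.map Prod.swap).reverse, by simpa using hl, ?_⟩
  rw [List.prod_inv_reverse, List.map_reverse, List.map_map, List.map_map]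
  congr 2
  apply List.map_congr_left
  rintro ⟨i, j⟩ _
  simp only [Function.comp_apply, Prod.swap_prod_mk]
  group

/-- Sizes along a sequence of tuples of words. -/
theorem ladder (hSZ : S_STEPSZ) (N : ℕ) : ∃ C₁ : ℝ, 1 ≤ C₁ ∧ ∀ C : ℝ, C₁ ≤ C →
    ∀ {n : ℕ} {M : Set (Cn n)} {Γ : Type} [Group Γ] {T : Γ → Cn n → Cn n}, GAct M T →
    ∀ (z₀ : Cn n) (r c : ℝ), 0 < r → 0 ≤ c → 16 * C * c ≤ r → ball z₀ r ⊆ M →
    ∀ {p : ℕ} (G : ℕ → Fin p → Γ), (∀ m k, G (m + 1) k ∈ Words N (G m)) →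
    (∀ k, Sz T z₀ r c (G 0 k)) →
    ∀ m k, Sz T z₀ (r * (1 / 2 + 1 / 2 ^ (m + 1))) (c / 4 ^ m) (G m k) := by
  obtain ⟨C₁, hC₁, H⟩ := hSZ N
  refine ⟨C₁, hC₁, fun C hC n M Γ _ T hT z₀ r c hr hc hCr hM p G hG h0 m => ?_⟩
  induction m with
  | zero =>
    intro k
    refine sz_mono (h0 k) (le_of_eq ?_) (le_of_eq ?_)
    · norm_num
    · norm_num
  | succ m ih =>
    intro k
    set X : ℝ := 2 ^ m with hX
    have hX1 : 1 ≤ X := one_le_pow₀ (by norm_num)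
    have hX0 : 0 < X := by linarith
    have e1 : (2 : ℝ) ^ (m + 1) = 2 * X := by rw [hX]; ring
    have e2 : (2 : ℝ) ^ (m + 1 + 1) = 4 * X := by rw [hX]; ring
    have e3 : (4 : ℝ) ^ m = X ^ 2 := by
      rw [hX, ← pow_mul, mul_comm m 2, pow_mul]; norm_num
    have e4 : (4 : ℝ) ^ (m + 1) = 4 * X ^ 2 := by rw [pow_succ, e3]; ring
    rw [e1, e3] at ih
    rw [e2, e4]
    have hCc : C₁ * c ≤ r / 16 := by
      have : C₁ * c ≤ C * c := mul_le_mul_of_nonneg_right hC hc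
      linarith
    have hCc0 : 0 ≤ C₁ * c := by positivity
    have hrX : r ≤ r * X := by nlinarith
    have hρ0 : 0 < r / (4 * X) := by positivity
    have hρr : r / (4 * X) < r * (1 / 2 + 1 / (2 * X)) := by
      rw [div_lt_iff₀ (by positivity)]
      have : r * (1 / 2 + 1 / (2 * X)) * (4 * X) = r * (2 * X + 2) := by
        field_simp
        ring
      rw [this]
      nlinarith
    have hd : C₁ * (c / X ^ 2) ≤ r / (4 * X) := by
      rw [mul_div_assoc', div_le_div_iff₀ (by positivity) (by positivity)]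
      nlinarith
    have hball : ball z₀ (r * (1 / 2 + 1 / (2 * X))) ⊆ M := by
      refine (ball_subset_ball ?_).trans hM
      have : 1 / (2 * X) ≤ 1 / 2 := by
        apply one_div_le_one_div_of_le (by norm_num)
        linarith
      nlinarith
    have h1 := H hT z₀ (r * (1 / 2 + 1 / (2 * X))) (r / (4 * X)) (c / X ^ 2) hρ0 hρr hball
      (by positivity) hd (G m) ih (G (m + 1) k) (hG m k)
    refine sz_mono h1 (le_of_eq ?_) ?_
    · field_simp
      ring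
    · have : C₁ / (r / (4 * X)) * (c / X ^ 2) ^ 2 = (C₁ * c) * c * 4 / (r * X ^ 3) := by
        field_simp
      rw [this, div_le_div_iff₀ (by positivity) (by positivity)]
      have h3 : C₁ * c * c * 4 * (4 * X ^ 2) ≤ (r / 16) * c * 4 * (4 * X ^ 2) := by
        gcongr
      refine h3.trans ?_
      have h4 : r / 16 * c * 4 * (4 * X ^ 2) = c * (r * X ^ 2) := by ring
      rw [h4]
      have h5 : X ^ 2 ≤ X ^ 3 := pow_le_pow_right₀ hX1 (by norm_num)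
      gcongr

theorem lz_mono {n : ℕ} {Γ : Type} {a : Γ → Cn n → ℂ} {z₀ : Cn n} {r r' L L' : ℝ}
    {γ : Γ} (h : Lz a z₀ r L γ) (hr : r' ≤ r) (hL : L ≤ L') : Lz a z₀ r' L' γ := fun x hx =>
  (h x (ball_subset_ball hr hx)).trans (mul_le_mul_of_nonneg_right hL (norm_nonneg _))

/-- The linear parts along a sequence of tuples of words. -/
theorem ladderA (hSZ : S_STEPSZ) (hA : S_STEPA) (N : ℕ) : ∃ C₁ : ℝ, 1 ≤ C₁ ∧ ∀ C : ℝ, C₁ ≤ C →
    ∀ {b : ℕ} {D : Set (Cn b)} {Γ : Type} [Group Γ]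
    {g : Γ → Cn b → Cn b} {a β : Γ → Cn b → ℂ}, LAct D g a β →
    ∀ (z₀ : Cn b) (r c L : ℝ), 0 < r → 0 ≤ c → 0 ≤ L → 16 * C * c ≤ r → ball z₀ r ⊆ D →
    ∀ {p : ℕ} (G : ℕ → Fin p → Γ), (∀ m k, G (m + 1) k ∈ Words N (G m)) →
    (∀ k, Sz g z₀ r c (G 0 k)) → (∀ k, Lz a z₀ r L (G 0 k)) →
    ∀ s : ℝ, 0 < s → ∃ m₀, ∀ m, m₀ ≤ m → ∀ k, ∀ x ∈ ball z₀ (r / 2),
      ‖a (G m k) x - 1‖ ≤ s ∧ ‖a (G m k)⁻¹ x - 1‖ ≤ s := by
  obtain ⟨C₁, hC₁, H₁⟩ := ladder hSZ N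
  obtain ⟨C₂, hC₂, H₂⟩ := hA N
  refine ⟨max C₁ C₂, le_max_of_le_left hC₁, fun C hC b D Γ _ g a β hD z₀ r c L hr hc hL hCr hM p
    G hG h0 hL0 s hs => ?_⟩
  have hC₁' : C₁ ≤ C := (le_max_left _ _).trans hC
  have hC₂' : C₂ ≤ C := (le_max_right _ _).trans hC
  have hS := H₁ C hC₁' hD.base.act z₀ r c hr hc hCr hM G hG h0
  have hC₂0 : 0 ≤ C₂ := by linarith
  have hCc : C₂ * c ≤ r / 16 := by
    have : C₂ * c ≤ C * c := mul_le_mul_of_nonneg_right hC₂' hc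
    linarith
  have hCc0 : 0 ≤ C₂ * c := by positivity
  -- one step
  have step : ∀ m, (∀ k, Lz a z₀ (r * (1 / 2 + 1 / 2 ^ (m + 1))) (L / 2 ^ m) (G m k)) →
      ∀ δ ∈ Words N (G m), Lz a z₀ (r * (1 / 2 + 1 / 2 ^ (m + 1 + 1))) (L / 2 ^ (m + 1)) δ ∧
        (C₂ * c * L / 2 ^ m ≤ 1 → ∀ x ∈ ball z₀ (r / 2), ‖a δ x - 1‖ ≤ C₂ * c * L / 2 ^ m) := by
    intro m hm δ hδ
    have hSm := hS m
    set X : ℝ := 2 ^ m with hX
    have hX1 : 1 ≤ X := one_le_pow₀ (by norm_num)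
    have hX0 : 0 < X := by linarith
    have e1 : (2 : ℝ) ^ (m + 1) = 2 * X := by rw [hX]; ring
    have e2 : (2 : ℝ) ^ (m + 1 + 1) = 4 * X := by rw [hX]; ring
    have e3 : (4 : ℝ) ^ m = X ^ 2 := by
      rw [hX, ← pow_mul, mul_comm m 2, pow_mul]; norm_num
    rw [e1, e3] at hSm
    rw [e1] at hm
    rw [e2, e1]
    have hrX : r ≤ r * X := by nlinarith
    have hρ0 : 0 < r / (4 * X) := by positivity
    have hρr : r / (4 * X) < r * (1 / 2 + 1 / (2 * X)) := by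
      rw [div_lt_iff₀ (by positivity)]
      have : r * (1 / 2 + 1 / (2 * X)) * (4 * X) = r * (2 * X + 2) := by
        field_simp
        ring
      rw [this]
      nlinarith
    have hd : C₂ * (c / X ^ 2) ≤ r / (4 * X) := by
      rw [mul_div_assoc', div_le_div_iff₀ (by positivity) (by positivity)]
      nlinarith
    have hball : ball z₀ (r * (1 / 2 + 1 / (2 * X))) ⊆ D := by
      refine (ball_subset_ball ?_).trans hM
      have : 1 / (2 * X) ≤ 1 / 2 := by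
        apply one_div_le_one_div_of_le (by norm_num)
        linarith
      nlinarith
    have h1 := H₂ hD z₀ (r * (1 / 2 + 1 / (2 * X))) (r / (4 * X)) (c / X ^ 2) (L / X) hρ0 hρr hball
      (by positivity) (by positivity) hd (G m) hSm hm δ hδ
    have hrad : r * (1 / 2 + 1 / (2 * X)) - r / (4 * X) = r * (1 / 2 + 1 / (4 * X)) := by
      field_simp
      ring
    rw [hrad] at h1
    refine ⟨lz_mono h1.1 le_rfl ?_, fun hle x hx => ?_⟩
    · have : C₂ / (r / (4 * X)) * (c / X ^ 2) * (L / X) = (C₂ * c) * 4 * L / (r * X ^ 2) := by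
        field_simp
      rw [this, div_le_div_iff₀ (by positivity) (by positivity)]
      have h3 : C₂ * c * 4 * L * (2 * X) ≤ (r / 16) * 4 * L * (2 * X) := by
        gcongr
      refine h3.trans ?_
      have h4 : X ≤ X ^ 2 := by nlinarith
      have h5 : r / 16 * 4 * L * (2 * X) = (r * L) * (X / 2) := by ring
      have h6 : L * (r * X ^ 2) = (r * L) * X ^ 2 := by ring
      rw [h5, h6]
      apply mul_le_mul_of_nonneg_left _ (by positivity)
      linarith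
    · have h7 : C₂ * (c / X ^ 2) * (L / X) ≤ C₂ * c * L / X := by
        have : C₂ * (c / X ^ 2) * (L / X) = (C₂ * c * L / X) * (1 / X ^ 2) := by
          field_simp
        rw [this]
        apply mul_le_of_le_one_right (by positivity)
        rw [div_le_one (by positivity)]
        nlinarith
      refine (h1.2 (h7.trans hle) x (ball_subset_ball ?_ hx)).trans h7
      have : 0 ≤ r * (1 / (4 * X)) := by positivity
      nlinarith
  have hLz : ∀ m k, Lz a z₀ (r * (1 / 2 + 1 / 2 ^ (m + 1))) (L / 2 ^ m) (G m k) := by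
    intro m
    induction m with
    | zero =>
      intro k
      refine lz_mono (hL0 k) (le_of_eq ?_) (le_of_eq ?_)
      · norm_num
      · norm_num
    | succ m ih => exact fun k => (step m ih _ (hG m k)).1
  -- the size tends to zero
  have htend : Tendsto (fun m : ℕ => C₂ * c * L / 2 ^ m) atTop (𝓝 0) := by
    have h1 : Tendsto (fun m : ℕ => C₂ * c * L * (1 / 2 : ℝ) ^ m) atTop (𝓝 (C₂ * c * L * 0)) :=
      (tendsto_pow_atTop_nhds_zero_of_lt_one (by norm_num) (by norm_num)).const_mul _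
    rw [mul_zero] at h1
    refine h1.congr fun m => ?_
    rw [one_div, inv_pow, div_eq_mul_inv]
  have hev : ∀ᶠ m : ℕ in atTop, C₂ * c * L / 2 ^ m ≤ min s 1 :=
    htend.eventually_le_const (lt_min hs one_pos)
  obtain ⟨m₀, hm₀⟩ := eventually_atTop.mp hev
  refine ⟨m₀ + 1, fun m hm k x hx => ?_⟩
  obtain ⟨m', rfl⟩ : ∃ m', m = m' + 1 := ⟨m - 1, by omega⟩
  have h1 := hm₀ m' (by omega)
  have h2 := step m' (hLz m')
  have h3 := h1.trans (min_le_left _ _)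
  have h4 := h1.trans (min_le_right _ _)
  exact ⟨((h2 _ (hG m' k)).2 h4 x hx).trans h3, ((h2 _ (words_inv (hG m' k))).2 h4 x hx).trans h3⟩

/-! ## The tuples -/

/-- Iterating the recursion. -/
theorem tuples {p : ℕ} {B : Br p} {Γ : Type} [Group Γ] {P : Γ →* Endo p} {κ ε₀ K₁ : ℝ} {N : ℕ}
    (hε₀ : 0 < ε₀) (hK₁ : 1 ≤ K₁) (hK₁ε : K₁ * ε₀ ≤ 1 / 2)
    (rec : ∀ ε : ℝ, 0 < ε → ε ≤ ε₀ → ∀ γ : Fin p → Γ,
      (∀ k, ‖P (γ k) - 1 - ε • adB B (Pi.single k 1)‖ ≤ κ * ε) →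
      ∃ γ' : Fin p → Γ, (∀ k, γ' k ∈ Words N γ) ∧
        ∀ k, ‖P (γ' k) - 1 - (K₁ * ε ^ 2) • adB B (Pi.single k 1)‖ ≤ κ * (K₁ * ε ^ 2))
    {σ : ℝ} (hσ : 0 < σ) (hσ' : σ ≤ ε₀) (γ₀ : Fin p → Γ)
    (h0 : ∀ k, ‖P (γ₀ k) - 1 - σ • adB B (Pi.single k 1)‖ ≤ κ * σ) :
    ∃ (G : ℕ → Fin p → Γ) (e : ℕ → ℝ), G 0 = γ₀ ∧ (∀ m k, G (m + 1) k ∈ Words N (G m)) ∧
      (∀ m, 0 < e m) ∧ (∀ m, e m ≤ σ / 2 ^ m) ∧
      ∀ m k, ‖P (G m k) - 1 - e m • adB B (Pi.single k 1)‖ ≤ κ * e m := by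
  classical
  let S := {x : (Fin p → Γ) × ℝ // 0 < x.2 ∧ x.2 ≤ ε₀ ∧
    ∀ k, ‖P (x.1 k) - 1 - x.2 • adB B (Pi.single k 1)‖ ≤ κ * x.2}
  have step : ∀ x : S, ∃ y : S, (∀ k, y.1.1 k ∈ Words N x.1.1) ∧ y.1.2 ≤ x.1.2 / 2 := by
    rintro ⟨⟨γ, ε⟩, h1, h2, h3⟩
    obtain ⟨γ', hw, hγ'⟩ := rec ε h1 h2 γ h3
    have h4 : K₁ * ε ≤ 1 / 2 := (mul_le_mul_of_nonneg_left h2 (by linarith)).trans hK₁ε
    have h5 : K₁ * ε ^ 2 ≤ ε / 2 := by nlinarith
    refine ⟨⟨⟨γ', K₁ * ε ^ 2⟩, by positivity, ?_, hγ'⟩, hw, h5⟩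
    simp only at h1 h2 ⊢
    linarith
  choose nxt hn1 hn2 using step
  let x₀ : S := ⟨⟨γ₀, σ⟩, hσ, hσ', h0⟩
  let f : ℕ → S := fun m => Nat.rec x₀ (fun _ x => nxt x) m
  have hf0 : f 0 = x₀ := rfl
  have hfs : ∀ m, f (m + 1) = nxt (f m) := fun m => rfl
  refine ⟨fun m => (f m).1.1, fun m => (f m).1.2, rfl, fun m k => ?_, fun m => (f m).2.1,
    fun m => ?_, fun m k => (f m).2.2.2 k⟩
  · exact hn1 (f m) k
  · induction m with
    | zero => simp [hf0, x₀]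
    | succ m ih =>
      refine (hn2 (f m)).trans ?_
      rw [pow_succ]
      have ih' : (f m).1.2 ≤ σ / 2 ^ m := ih
      calc (f m).1.2 / 2 ≤ (σ / 2 ^ m) / 2 := by linarith
        _ = σ / (2 ^ m * 2) := by rw [div_div]

/-- The members of the tuples are not contained in a finite set. -/
theorem not_finite {p : ℕ} {B : Br p} {Γ : Type} [Group Γ] {P : Γ →* Endo p} {κ σ : ℝ}
    (hσ : 0 < σ) (hκ : 0 < κ) (k : Fin p) (hk : 2 * κ < ‖adB B (Pi.single k 1)‖)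
    {G : ℕ → Fin p → Γ} {e : ℕ → ℝ} (he : ∀ m, 0 < e m) (he' : ∀ m, e m ≤ σ / 2 ^ m)
    (hP : ∀ m k, ‖P (G m k) - 1 - e m • adB B (Pi.single k 1)‖ ≤ κ * e m)
    {F : Set Γ} (hF : F.Finite) (m₀ : ℕ) (hm₀ : ∀ m, m₀ ≤ m → G m k ∈ F) : False := by
  classical
  set W : ℝ := ‖adB B (Pi.single k 1)‖ with hW
  have hlow : ∀ m, 0 < ‖P (G m k) - 1‖ := by
    intro m
    have h1 : e m * W ≤ ‖P (G m k) - 1‖ + κ * e m := by
      have h2 : ‖e m • adB B (Pi.single k 1)‖ = e m * W := by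
        rw [norm_smul, Real.norm_of_nonneg (he m).le]
      rw [← h2]
      have h3 : e m • adB B (Pi.single k 1) = (P (G m k) - 1) -
          (P (G m k) - 1 - e m • adB B (Pi.single k 1)) := by abel
      conv_lhs => rw [h3]
      exact (norm_sub_le _ _).trans (add_le_add le_rfl (hP m k))
    have h4 := he m
    nlinarith
  have hup : ∀ m, ‖P (G m k) - 1‖ ≤ (W + κ) * (σ / 2 ^ m) := by
    intro m
    have h2 : ‖e m • adB B (Pi.single k 1)‖ = e m * W := by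
      rw [norm_smul, Real.norm_of_nonneg (he m).le]
    have h3 : P (G m k) - 1 = (P (G m k) - 1 - e m • adB B (Pi.single k 1)) +
        e m • adB B (Pi.single k 1) := by abel
    have h5 : ‖P (G m k) - 1‖ ≤ κ * e m + e m * W := by
      conv_lhs => rw [h3]
      rw [← h2]
      exact (norm_add_le _ _).trans (add_le_add (hP m k) le_rfl)
    refine h5.trans ?_
    have h6 : κ * e m + e m * W = (W + κ) * e m := by ring
    rw [h6]
    have hW0 : 0 ≤ W := norm_nonneg _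
    exact mul_le_mul_of_nonneg_left (he' m) (by linarith)
  have htend : Tendsto (fun m : ℕ => (W + κ) * (σ / 2 ^ m)) atTop (𝓝 0) := by
    have h1 : Tendsto (fun m : ℕ => (W + κ) * σ * (1 / 2 : ℝ) ^ m) atTop
        (𝓝 ((W + κ) * σ * 0)) :=
      (tendsto_pow_atTop_nhds_zero_of_lt_one (by norm_num) (by norm_num)).const_mul _
    rw [mul_zero] at h1
    refine h1.congr fun m => ?_
    rw [one_div, inv_pow, div_eq_mul_inv]
    ring
  set F' : Finset Γ := hF.toFinset.filter fun δ => 0 < ‖P δ - 1‖ with hF'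
  have hne : F'.Nonempty := ⟨G m₀ k, by
    rw [hF', Finset.mem_filter, Set.Finite.mem_toFinset]
    exact ⟨hm₀ m₀ le_rfl, hlow m₀⟩⟩
  obtain ⟨δ, hδ, hmin⟩ := Finset.exists_min_image F' (fun δ => ‖P δ - 1‖) hne
  have hδ0 : 0 < ‖P δ - 1‖ := by
    rw [hF', Finset.mem_filter] at hδ
    exact hδ.2
  obtain ⟨m₁, hm₁⟩ := eventually_atTop.mp (htend.eventually_lt_const hδ0)
  have h1 := hm₁ (max m₀ m₁) (le_max_right _ _)
  have h2 := hmin (G (max m₀ m₁) k) (by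
    rw [hF', Finset.mem_filter, Set.Finite.mem_toFinset]
    exact ⟨hm₀ _ (le_max_left _ _), hlow _⟩)
  have h3 := hup (max m₀ m₁)
  linarith

/-! ## Scaling the translation parts -/

theorem lact_scale {b : ℕ} {D : Set (Cn b)} {Γ : Type} [Group Γ] {g : Γ → Cn b → Cn b}
    {a β : Γ → Cn b → ℂ} (h : LAct D g a β) {t : ℝ} (ht : 0 < t) :
    LAct D g a (fun γ z => (t : ℂ) * β γ z) := by
  have ht' : (t : ℂ) ≠ 0 := by exact_mod_cast ht.ne'
  have hnt : ‖(t : ℂ)‖ = t := by rw [Complex.norm_real, Real.norm_of_nonneg ht.le]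
  have key : ∀ (γ : Γ) (z : Cn b) (w : ℂ),
      a γ z * w + (t : ℂ) * β γ z = (t : ℂ) * (a γ z * (w / t) + β γ z) := fun γ z w => by
    field_simp
  refine ⟨h.base, h.a_holo, fun γ => (h.b_holo γ).const_mul _, h.a_ne, h.a_one, fun z hz => ?_,
    h.a_mul, fun γ γ' z hz => ?_, fun K hK hKc R => ?_, ?_⟩
  · rw [h.b_one z hz, mul_zero]
  · rw [h.b_mul γ γ' z hz]
    ring
  · refine (h.proper K hK hKc (R / t)).subset ?_
    rintro γ ⟨z, hz, w, hw, hgz, hle⟩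
    refine ⟨z, hz, w / t, ?_, hgz, ?_⟩
    · rw [norm_div, hnt]
      exact div_le_div_of_nonneg_right hw ht.le
    · rw [key, norm_mul, hnt] at hle
      rw [le_div_iff₀ ht, mul_comm]
      exact hle
  · obtain ⟨K, hK, hKc, R, hR⟩ := h.coc
    refine ⟨K, hK, hKc, t * R, fun z hz w => ?_⟩
    obtain ⟨γ, hγ1, hγ2⟩ := hR z hz (w / t)
    refine ⟨γ, hγ1, ?_⟩
    rw [key, norm_mul, hnt]
    exact mul_le_mul_of_nonneg_left hγ2 ht.le

theorem norm_base_sub {b : ℕ} (v w : Cn (b + 1)) : ‖base v - base w‖ ≤ ‖v - w‖ := by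
  rw [pi_norm_le_iff_of_nonneg (norm_nonneg _)]
  intro i
  exact norm_le_pi_norm (v - w) (Fin.castAdd 1 i)

theorem base_append {b : ℕ} (z : Cn b) (w : Fin 1 → ℂ) :
    base (Fin.append z w : Cn (b + 1)) = z := by
  funext i
  exact Fin.append_left z w i

/-- Displacement of the action on `D × ℂ`. -/
theorem norm_Tt_sub {b : ℕ} {Γ : Type} (g : Γ → Cn b → Cn b) (a β : Γ → Cn b → ℂ) (γ : Γ)
    (v : Cn (b + 1)) {d : ℝ} (hd : 0 ≤ d) :
    ‖Tt g a β γ v - v‖ ≤ d ↔ ‖g γ (base v) - base v‖ ≤ d ∧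
      ‖a γ (base v) * v (Fin.natAdd b 0) + β γ (base v) - v (Fin.natAdd b 0)‖ ≤ d := by
  rw [pi_norm_le_iff_of_nonneg hd, pi_norm_le_iff_of_nonneg hd]
  constructor
  · intro h
    refine ⟨fun i => ?_, ?_⟩
    · have := h (Fin.castAdd 1 i)
      simpa [Tt, base] using this
    · have := h (Fin.natAdd b 0)
      simpa [Tt, base] using this
  · rintro ⟨h1, h2⟩ i
    refine Fin.addCases (fun i => ?_) (fun j => ?_) i
    · have := h1 i
      simpa [Tt, base] using this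
    · have hj : j = 0 := Subsingleton.elim _ _
      subst hj
      simpa [Tt, base] using h2

/-- The semisimple part is trivial. -/
theorem noss (hSZ : S_STEPSZ) (hA : S_STEPA) (hREC : S_REC) (hPWR : S_PWR) (hTGA : S_TGA) :
    S_NOSS := by
  classical
  intro b D Γ _ g a β hD p B P hS
  obtain ⟨κ, ε₀, K₁, N, hκ, hε₀, hK₁, hK₁ε, hk2, hrec⟩ := hREC p B hS.lie
  obtain ⟨C₁, hC₁, L₁⟩ := ladder hSZ N
  obtain ⟨C₂, hC₂, L₂⟩ := ladderA hSZ hA N
  set C : ℝ := max C₁ C₂ with hC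
  have hC1 : 1 ≤ C := hC₁.trans (le_max_left _ _)
  have hC0 : 0 < C := by linarith
  have hopen : IsOpen D := hD.base.dom.isOpen
  obtain ⟨z₀, hz₀⟩ := hD.base.dom.conn.nonempty
  -- the radius
  obtain ⟨r₁, hr₁, hr₁D⟩ := Metric.isOpen_iff.mp hopen z₀ hz₀
  set r : ℝ := r₁ / 4 with hr
  have hr0 : 0 < r := by positivity
  have hK : closedBall z₀ (2 * r) ⊆ D := by
    refine (closedBall_subset_ball ?_).trans hr₁D
    rw [hr]
    linarith
  have hKc : IsCompact (closedBall z₀ (2 * r)) := isCompact_closedBall _ _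
  have hball : ball z₀ r ⊆ D := by
    refine (ball_subset_closedBall.trans (closedBall_subset_closedBall ?_)).trans hK
    linarith
  set c₁ : ℝ := r / (16 * C) with hc₁
  have hc₁0 : 0 < c₁ := by positivity
  have hc₁C : 16 * C * c₁ ≤ r := by
    rw [hc₁]
    field_simp
    exact le_rfl
  -- the first tuple
  obtain ⟨C', ρ', hC', hρ', hpw⟩ := hPWR hD.base (closedBall z₀ (2 * r)) hK hKc
  set ε : ℝ := min (min κ c₁) (min ρ' (c₁ / (C' + 1))) with hε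
  have hε0 : 0 < ε := by
    rw [hε]
    refine lt_min (lt_min hκ hc₁0) (lt_min hρ' (by positivity))
  have hεκ : ε ≤ κ := (min_le_left _ _).trans (min_le_left _ _)
  have hεc : ε ≤ c₁ := (min_le_left _ _).trans (min_le_right _ _)
  have hερ : ε ≤ ρ' := (min_le_right _ _).trans (min_le_left _ _)
  have hεC : C' * ε ≤ c₁ := by
    have h1 : ε ≤ c₁ / (C' + 1) := (min_le_right _ _).trans (min_le_right _ _)
    rw [le_div_iff₀ (by linarith)] at h1
    nlinarith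
  obtain ⟨σ₀, hσ₀, happ⟩ := hS.approx (closedBall z₀ (2 * r)) hK hKc ε hε0
  set σ : ℝ := min σ₀ ε₀ / 2 with hσ
  have hσ0 : 0 < σ := by
    rw [hσ]
    have := lt_min hσ₀ hε₀
    positivity
  have hσσ : σ < σ₀ := by
    have h1 : min σ₀ ε₀ ≤ σ₀ := min_le_left _ _
    rw [hσ]
    linarith
  have hσε : σ ≤ ε₀ := by
    have h1 : min σ₀ ε₀ ≤ ε₀ := min_le_right _ _
    rw [hσ]
    linarith
  choose γ₀ hγ₀ hγ₀' using happ σ hσ0 hσσ
  obtain ⟨G, e, hG0, hGw, he, he', hGP⟩ := tuples hε₀ hK₁ hK₁ε (hrec Γ P hS.aut) hσ0 hσε γ₀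
    (fun k => (hγ₀' k).trans (mul_le_mul_of_nonneg_right hεκ hσ0.le))
  -- sizes of the first tuple
  have hsz0 : ∀ k, Sz g z₀ r c₁ (G 0 k) := by
    intro k x hx
    have hxK : x ∈ closedBall z₀ (2 * r) := by
      rw [mem_closedBall]
      rw [mem_ball] at hx
      linarith
    rw [hG0]
    refine ⟨(hγ₀ k x hxK).trans hεc, ?_⟩
    exact ((hpw (γ₀ k) ε hερ x hxK (hγ₀ k x hxK)).1).trans hεC
  obtain ⟨L, hL0, hL⟩ : ∃ L : ℝ, 0 ≤ L ∧ ∀ k, Lz a z₀ r L (G 0 k) := by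
    have h1 : ∀ k, ∃ L : ℝ, ∀ x ∈ closedBall z₀ (2 * r),
        ‖fderiv ℂ (a (G 0 k)) x‖ / ‖a (G 0 k) x‖ ≤ L := by
      intro k
      have hc : ContinuousOn (fun x => ‖fderiv ℂ (a (G 0 k)) x‖ / ‖a (G 0 k) x‖)
          (closedBall z₀ (2 * r)) := by
        refine ContinuousOn.div ?_ ?_ ?_
        · exact ((holo_fderiv hopen (hD.a_holo (G 0 k))).continuousOn.mono hK).norm
        · exact ((hD.a_holo (G 0 k)).continuousOn.mono hK).norm
        · intro x hx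
          exact norm_ne_zero_iff.mpr (hD.a_ne _ x (hK hx))
      obtain ⟨L, hL⟩ := hKc.exists_bound_of_continuousOn hc
      exact ⟨L, fun x hx => (le_abs_self _).trans (hL x hx)⟩
    choose Lk hLk using h1
    refine ⟨∑ k, |Lk k|, Finset.sum_nonneg fun k _ => abs_nonneg _, fun k x hx => ?_⟩
    have hxK : x ∈ closedBall z₀ (2 * r) := by
      rw [mem_closedBall]
      rw [mem_ball] at hx
      linarith
    have h2 := hLk k x hxK
    have hpos : 0 < ‖a (G 0 k) x‖ := norm_pos_iff.mpr (hD.a_ne _ x (hK hxK))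
    rw [div_le_iff₀ hpos] at h2
    refine h2.trans (mul_le_mul_of_nonneg_right ?_ hpos.le)
    exact (le_abs_self _).trans
      (Finset.single_le_sum (f := fun k => |Lk k|) (fun i _ => abs_nonneg _) (Finset.mem_univ k))
  have S1 := L₁ C (le_max_left _ _) hD.base.act z₀ r c₁ hr0 hc₁0.le hc₁C hball G hGw hsz0
  -- second stage
  set r' : ℝ := min (r / 2) 1 with hr'
  have hr'0 : 0 < r' := lt_min (by positivity) one_pos
  have hr'r : r' ≤ r / 2 := min_le_left _ _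
  have hr'1 : r' ≤ 1 := min_le_right _ _
  set c₂ : ℝ := r' / (16 * C) with hc₂
  have hc₂0 : 0 < c₂ := by positivity
  have hc₂C : 16 * C * c₂ ≤ r' := by
    rw [hc₂]
    field_simp
    exact le_rfl
  obtain ⟨m₀, hm₀⟩ := L₂ C (le_max_right _ _) hD z₀ r c₁ L hr0 hc₁0.le hL0 hc₁C hball G hGw hsz0
    hL (c₂ / 2) (by positivity)
  -- a level with small sizes
  obtain ⟨m₁, hm₁, hm₁'⟩ : ∃ m₁, m₀ ≤ m₁ ∧ c₁ / 4 ^ m₁ ≤ c₂ := by
    have htend : Tendsto (fun m : ℕ => c₁ / 4 ^ m) atTop (𝓝 0) := by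
      have h1 : Tendsto (fun m : ℕ => c₁ * (1 / 4 : ℝ) ^ m) atTop (𝓝 (c₁ * 0)) :=
        (tendsto_pow_atTop_nhds_zero_of_lt_one (by norm_num) (by norm_num)).const_mul _
      rw [mul_zero] at h1
      refine h1.congr fun m => ?_
      rw [one_div, inv_pow, div_eq_mul_inv]
    obtain ⟨m₂, hm₂⟩ := eventually_atTop.mp (htend.eventually_le_const hc₂0)
    exact ⟨max m₀ m₂, le_max_left _ _, hm₂ _ (le_max_right _ _)⟩
  -- bound of the translation parts
  obtain ⟨Bd, hBd0, hBd⟩ : ∃ Bd : ℝ, 0 ≤ Bd ∧ ∀ k, ∀ x ∈ closedBall z₀ (2 * r),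
      ‖β (G m₁ k) x‖ ≤ Bd ∧ ‖β (G m₁ k)⁻¹ x‖ ≤ Bd := by
    have h1 : ∀ k, ∃ L : ℝ, ∀ x ∈ closedBall z₀ (2 * r), ‖β (G m₁ k) x‖ ≤ L := fun k =>
      hKc.exists_bound_of_continuousOn ((hD.b_holo (G m₁ k)).continuousOn.mono hK)
    have h2 : ∀ k, ∃ L : ℝ, ∀ x ∈ closedBall z₀ (2 * r), ‖β (G m₁ k)⁻¹ x‖ ≤ L := fun k =>
      hKc.exists_bound_of_continuousOn ((hD.b_holo (G m₁ k)⁻¹).continuousOn.mono hK)
    choose L1 hL1 using h1
    choose L2 hL2 using h2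
    refine ⟨∑ k, (|L1 k| + |L2 k|), Finset.sum_nonneg fun k _ => by positivity, fun k x hx => ?_⟩
    have h3 : |L1 k| + |L2 k| ≤ ∑ k, (|L1 k| + |L2 k|) :=
      Finset.single_le_sum (f := fun k => |L1 k| + |L2 k|) (fun i _ => by positivity)
        (Finset.mem_univ k)
    refine ⟨?_, ?_⟩
    · refine (hL1 k x hx).trans (le_trans ?_ h3)
      exact (le_abs_self _).trans (le_add_of_nonneg_right (abs_nonneg _))
    · refine (hL2 k x hx).trans (le_trans ?_ h3)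
      exact (le_abs_self _).trans (le_add_of_nonneg_left (abs_nonneg _))
  set t : ℝ := c₂ / (2 * (Bd + 1)) with ht
  have ht0 : 0 < t := by positivity
  have htB : t * Bd ≤ c₂ / 2 := by
    have : t * (Bd + 1) = c₂ / 2 := by
      rw [ht]
      field_simp
    nlinarith
  have hD' := lact_scale hD ht0
  obtain ⟨hT, -, -, -⟩ := hTGA hD'
  set x₀ : Cn (b + 1) := Fin.append z₀ fun _ => 0 with hx₀
  have hbx₀ : base x₀ = z₀ := base_append z₀ _
  have hlx₀ : x₀ (Fin.natAdd b 0) = 0 := by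
    rw [hx₀]
    exact Fin.append_right z₀ _ 0
  have hin : ∀ x ∈ ball x₀ r', base x ∈ ball z₀ (r / 2) ∧ ‖x (Fin.natAdd b 0)‖ < 1 := by
    intro x hx
    rw [mem_ball, dist_eq_norm] at hx
    constructor
    · rw [mem_ball, dist_eq_norm, ← hbx₀]
      exact (norm_base_sub _ _).trans_lt (hx.trans_le hr'r)
    · have h1 := norm_le_pi_norm (x - x₀) (Fin.natAdd b 0)
      rw [Pi.sub_apply, hlx₀, sub_zero] at h1
      exact h1.trans_lt (hx.trans_le hr'1)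
  have hMx : ball x₀ r' ⊆ tubeS D := fun x hx =>
    hball (ball_subset_ball (by linarith) (hin x hx).1)
  have hsz1 : ∀ k, Sz (Tt g a fun γ z => (t : ℂ) * β γ z) x₀ r' c₂ (G (m₁ + 0) k) := by
    intro k x hx
    obtain ⟨hx1, hx2⟩ := hin x hx
    have hxr : base x ∈ ball z₀ (r * (1 / 2 + 1 / 2 ^ (m₁ + 1))) := by
      refine ball_subset_ball ?_ hx1
      have : 0 ≤ r * (1 / 2 ^ (m₁ + 1)) := by positivity
      linarith
    have hxK : base x ∈ closedBall z₀ (2 * r) := by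
      rw [mem_closedBall]
      rw [mem_ball] at hx1
      linarith
    have hsg := S1 m₁ k (base x) hxr
    have hsa := hm₀ m₁ hm₁ k (base x) hx1
    have hsb := hBd k (base x) hxK
    have gen : ∀ (aa bb : ℂ), ‖aa - 1‖ ≤ c₂ / 2 → ‖bb‖ ≤ Bd →
        ‖aa * x (Fin.natAdd b 0) + (t : ℂ) * bb - x (Fin.natAdd b 0)‖ ≤ c₂ := by
      intro aa bb haa hbb
      have e1 : aa * x (Fin.natAdd b 0) + (t : ℂ) * bb - x (Fin.natAdd b 0) =
          (aa - 1) * x (Fin.natAdd b 0) + (t : ℂ) * bb := by ring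
      rw [e1]
      refine (norm_add_le _ _).trans ?_
      rw [norm_mul, norm_mul, Complex.norm_real, Real.norm_of_nonneg ht0.le]
      have h1 : ‖aa - 1‖ * ‖x (Fin.natAdd b 0)‖ ≤ c₂ / 2 := by
        have : ‖aa - 1‖ * ‖x (Fin.natAdd b 0)‖ ≤ (c₂ / 2) * 1 :=
          mul_le_mul haa hx2.le (norm_nonneg _) (by positivity)
        linarith
      have h2 : t * ‖bb‖ ≤ c₂ / 2 := (mul_le_mul_of_nonneg_left hbb ht0.le).trans htB
      linarith
    rw [add_zero]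
    exact ⟨(norm_Tt_sub _ _ _ _ _ hc₂0.le).mpr ⟨hsg.1.trans hm₁', gen _ _ hsa.1 hsb.1⟩,
      (norm_Tt_sub _ _ _ _ _ hc₂0.le).mpr ⟨hsg.2.trans hm₁', gen _ _ hsa.2 hsb.2⟩⟩
  have S2 := L₁ C (le_max_left _ _) hT x₀ r' c₂ hr'0 hc₂0.le hc₂C hMx (fun m => G (m₁ + m))
    (fun m k => hGw (m₁ + m) k) hsz1
  -- all members lie in a finite set
  have hfin := hD'.proper (closedBall z₀ (2 * r)) hK hKc c₂
  refine not_finite hσ0 hκ ⟨0, hS.lie.pos⟩ (hk2 _) he he' hGP hfin m₁ fun m hm => ?_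
  obtain ⟨m', rfl⟩ : ∃ m', m = m₁ + m' := ⟨m - m₁, by omega⟩
  have h1 := (S2 m' ⟨0, hS.lie.pos⟩ x₀ (mem_ball_self (by positivity))).1
  have h2 : c₂ / 4 ^ m' ≤ c₂ := div_le_self hc₂0.le (one_le_pow₀ (by norm_num))
  have h3 := (norm_Tt_sub _ _ _ _ _ hc₂0.le).mp (h1.trans h2)
  rw [hbx₀, hlx₀] at h3
  refine ⟨z₀, mem_closedBall_self (by positivity), 0, by simpa using hc₂0.le, ?_, ?_⟩
  · rw [mem_closedBall, dist_eq_norm]
    refine h3.1.trans ?_
    have h4 : c₂ ≤ r' := by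
      have : c₂ ≤ 16 * C * c₂ := by nlinarith
      linarith
    linarith
  · simpa using h3.2

end Pool.Agent.Helper88.Lin
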