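import Pool.Agent.Helper88.Lin.GEN

/-!
# Packets ADAPX, BRL
-/

open Complex Metric Set Filter Topology MeasureTheory
open scoped ContDiff ComplexConjugate ComplexOrder

namespace Pool.Agent.Helper88.Lin

open Pool.Agent.Helper95.Lin

/-- Bounds for two fields near a compact set. -/
theorem pack {b : ℕ} {D K : Set (Cn b)} (hD : IsOpen D) (hK : K ⊆ D) (hKc : IsCompact K)
    {V W : Cn b → Cn b} (hV : DifferentiableOn ℂ V D) (hW : DifferentiableOn ℂ W D) :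
    ∃ K₁ ⊆ D, IsCompact K₁ ∧ K ⊆ K₁ ∧ ∃ M Λ δ : ℝ, 0 ≤ M ∧ 0 ≤ Λ ∧ 0 < δ ∧
      (∀ x ∈ K, ∀ y, ‖y - x‖ ≤ δ → y ∈ K₁) ∧ (∀ x ∈ K₁, ‖V x‖ ≤ M ∧ ‖W x‖ ≤ M) ∧
      (∀ x ∈ K₁, ‖fderiv ℂ V x‖ ≤ M ∧ ‖fderiv ℂ W x‖ ≤ M) ∧
      ∀ x ∈ K, ∀ y, ‖y - x‖ ≤ δ → ‖V y - V x‖ ≤ Λ * ‖y - x‖ ∧ ‖W y - W x‖ ≤ Λ * ‖y - x‖ ∧
        ‖fderiv ℂ V y - fderiv ℂ V x‖ ≤ Λ * ‖y - x‖ ∧
        ‖fderiv ℂ W y - fderiv ℂ W x‖ ≤ Λ * ‖y - x‖ := by
  obtain ⟨K₁, hK₁, hK₁c, hKK₁, δ, hδ, hnb⟩ := exists_nbhd hD hK hKc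
  obtain ⟨M1, hM1, hb1⟩ := exists_bd hK₁ hK₁c hV
  obtain ⟨M2, hM2, hb2⟩ := exists_bd hK₁ hK₁c hW
  obtain ⟨M3, hM3, hb3⟩ := exists_bd hK₁ hK₁c (holo_fderiv hD hV)
  obtain ⟨M4, hM4, hb4⟩ := exists_bd hK₁ hK₁c (holo_fderiv hD hW)
  obtain ⟨L1, hL1, δ1, hδ1, hl1⟩ := exists_lip hD hK hKc hV
  obtain ⟨L2, hL2, δ2, hδ2, hl2⟩ := exists_lip hD hK hKc hW
  obtain ⟨L3, hL3, δ3, hδ3, hl3⟩ := exists_lip hD hK hKc (holo_fderiv hD hV)
  obtain ⟨L4, hL4, δ4, hδ4, hl4⟩ := exists_lip hD hK hKc (holo_fderiv hD hW)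
  refine ⟨K₁, hK₁, hK₁c, hKK₁, M1 + M2 + M3 + M4, L1 + L2 + L3 + L4,
    min δ (min (min δ1 δ2) (min δ3 δ4)), by positivity, by positivity,
    lt_min hδ (lt_min (lt_min hδ1 hδ2) (lt_min hδ3 hδ4)),
    fun x hx y hy => hnb x hx y (hy.trans (min_le_left _ _)),
    fun x hx => ⟨(hb1 x hx).trans (by linarith), (hb2 x hx).trans (by linarith)⟩,
    fun x hx => ⟨(hb3 x hx).trans (by linarith), (hb4 x hx).trans (by linarith)⟩,
    fun x hx y hy => ?_⟩
  have h0 := hy.trans (min_le_right _ _)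
  have h12 := h0.trans (min_le_left _ _)
  have h34 := h0.trans (min_le_right _ _)
  have hn : 0 ≤ ‖y - x‖ := norm_nonneg _
  refine ⟨(hl1 x hx y (h12.trans (min_le_left _ _))).trans ?_,
    (hl2 x hx y (h12.trans (min_le_right _ _))).trans ?_,
    (hl3 x hx y (h34.trans (min_le_left _ _))).trans ?_,
    (hl4 x hx y (h34.trans (min_le_right _ _))).trans ?_⟩
  all_goals exact mul_le_mul_of_nonneg_right (by linarith) hn

theorem adapx (hPWR : S_PWR) (hCAU : S_CAU) : S_ADAPX := by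
  intro b D Γ _ g hD V W hV hW K hK hKc ε hε
  have hopen := hD.dom.isOpen
  obtain ⟨K₁, hK₁, hK₁c, hKK₁, M, Λ, δ, hM, hΛ, hδ, hnb, hbd, hbd', hlip⟩ :=
    pack hopen hK hKc hV hW
  obtain ⟨K', hK', hK'c, hint, C, hC, hcau⟩ := hCAU (n := b) (m := b) D hopen K₁ hK₁ hK₁c
  have hK₁K' : K₁ ⊆ K' := hint.trans interior_subset
  obtain ⟨Cp, ρ, hCp, hρ, hpw⟩ := hPWR hD K hK hKc
  set ε' : ℝ := min 1 (ε / (2 * (M + C * M + 1))) with hε'
  have hε'0 : 0 < ε' := lt_min one_pos (by positivity)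
  have hε'1 : ε' ≤ 1 := min_le_left _ _
  have hε'2 : ε' * (M + C * M) ≤ ε / 2 := by
    have h1 : ε' ≤ ε / (2 * (M + C * M + 1)) := min_le_right _ _
    rw [le_div_iff₀ (by positivity)] at h1
    nlinarith
  set A : ℝ := Cp * (M + 1) with hA
  have hA0 : 0 ≤ A := by positivity
  set Q : ℝ := Λ * A ^ 2 + 3 * M * Λ * A with hQ
  have hQ0 : 0 ≤ Q := by positivity
  refine ⟨K', hK', hK'c, ε', hε'0, min (ρ / (M + 1)) (min (δ / (A + 1)) (ε / (2 * (Q + 1)))),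
    lt_min (by positivity) (lt_min (by positivity) (by positivity)), fun σ hσ hσ' γ hγ z hz => ?_⟩
  have e1 : σ < ρ / (M + 1) := hσ'.trans_le (min_le_left _ _)
  have e2 : σ < δ / (A + 1) := hσ'.trans_le ((min_le_right _ _).trans (min_le_left _ _))
  have e3 : σ < ε / (2 * (Q + 1)) := hσ'.trans_le ((min_le_right _ _).trans (min_le_right _ _))
  rw [lt_div_iff₀ (by positivity)] at e1 e2 e3
  have hzD := hK hz
  have hzK₁ := hKK₁ hz
  -- the point y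
  have h1 : ‖g γ z - z‖ ≤ (M + 1) * σ := by
    have h4 : g γ z - z = (g γ z - z - σ • V z) + σ • V z := by abel
    rw [h4]
    refine (norm_add_le _ _).trans ?_
    have h5 : ‖σ • V z‖ ≤ σ * M := by
      rw [norm_smul, Real.norm_of_nonneg hσ.le]
      exact mul_le_mul_of_nonneg_left (hbd z hzK₁).1 hσ.le
    have h6 := hγ z (hK₁K' hzK₁)
    nlinarith
  set y := g γ⁻¹ z with hy
  have h3 : ‖y - z‖ ≤ A * σ := by
    have := (hpw γ ((M + 1) * σ) (by linarith) z hz h1).1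
    rw [hA]
    linarith
  have hyδ : ‖y - z‖ ≤ δ := h3.trans (by nlinarith)
  have hyK₁ : y ∈ K₁ := hnb z hz y hyδ
  have hyD : y ∈ D := hK₁ hyK₁
  have hgy : g γ y = z := by rw [hy, hD.act.inv_right γ hzD]
  -- the error field
  set f : Cn b → Cn b := fun x => g γ x - x - σ • V x with hf
  have hfd : DifferentiableOn ℂ f D :=
    ((hD.act.holo γ).sub differentiableOn_id).sub (hV.const_smul σ)
  have hDf := (hcau f hfd (ε' * σ) hγ).1 y hyK₁
  have hgat : DifferentiableAt ℂ (g γ) y := (hD.act.holo γ y hyD).differentiableAt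
    (hopen.mem_nhds hyD)
  have hVat : DifferentiableAt ℂ V y := (hV y hyD).differentiableAt (hopen.mem_nhds hyD)
  have hfder : fderiv ℂ f y = fderiv ℂ (g γ) y - ContinuousLinearMap.id ℂ (Cn b) -
      σ • fderiv ℂ V y :=
    ((hgat.hasFDerivAt.sub (hasFDerivAt_id y)).sub (hVat.hasFDerivAt.const_smul σ)).fderiv
  have hAd : AdV D g γ W z = fderiv ℂ (g γ) y (W y) := by
    unfold AdV
    rw [Set.indicator_of_mem hzD]
  -- decomposition
  set u1 := W y - W z - fderiv ℂ W z (y - z) with hu1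
  set u2 := y - z + σ • V z with hu2
  set u3 := σ • (fderiv ℂ V y (W y) - fderiv ℂ V z (W z)) with hu3
  set E := fderiv ℂ f y (W y) with hE
  have hdec : AdV D g γ W z - W z + σ • brV V W z = u1 + fderiv ℂ W z u2 + u3 + E := by
    rw [hAd, hu1, hu2, hu3, hE, hfder]
    unfold brV
    simp only [ContinuousLinearMap.sub_apply, ContinuousLinearMap.smul_apply,
      ContinuousLinearMap.id_apply, map_add, map_sub, smul_sub]
    have : fderiv ℂ W z (σ • V z) = σ • fderiv ℂ W z (V z) :=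
      (fderiv ℂ W z).map_smul_of_tower σ (V z)
    rw [this]
    abel
  -- the four estimates
  have b1 : ‖u1‖ ≤ Λ * A ^ 2 * σ ^ 2 := by
    have hsub : closedBall z ‖y - z‖ ⊆ K₁ := fun x hx => hnb z hz x (by
      rw [mem_closedBall, dist_eq_norm] at hx
      exact hx.trans hyδ)
    have h5 : ‖W y - W z - fderiv ℂ W z (y - z)‖ ≤ (Λ * ‖y - z‖) * ‖y - z‖ := by
      refine (convex_closedBall z ‖y - z‖).norm_image_sub_le_of_norm_fderiv_le' (𝕜 := ℂ)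
        (fun x hx => ?_) (fun x hx => ?_) (mem_closedBall_self (norm_nonneg _)) ?_
      · exact (hW x (hK₁ (hsub hx))).differentiableAt (hopen.mem_nhds (hK₁ (hsub hx)))
      · rw [mem_closedBall, dist_eq_norm] at hx
        exact ((hlip z hz x (hx.trans hyδ)).2.2.2).trans (mul_le_mul_of_nonneg_left hx hΛ)
      · rw [mem_closedBall, dist_eq_norm]
    refine h5.trans ?_
    calc Λ * ‖y - z‖ * ‖y - z‖ ≤ Λ * (A * σ) * (A * σ) := by gcongr
      _ = Λ * A ^ 2 * σ ^ 2 := by ring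
  have b2 : ‖fderiv ℂ W z u2‖ ≤ M * (ε' * σ + Λ * A * σ ^ 2) := by
    have h5 : u2 = -(f y) - σ • (V y - V z) := by
      rw [hu2, hf]
      simp only
      rw [hgy, smul_sub]
      abel
    have h6 : ‖u2‖ ≤ ε' * σ + Λ * A * σ ^ 2 := by
      rw [h5]
      refine (norm_sub_le _ _).trans (add_le_add ?_ ?_)
      · rw [norm_neg]
        exact hγ y (hK₁K' hyK₁)
      · rw [norm_smul, Real.norm_of_nonneg hσ.le]
        calc σ * ‖V y - V z‖ ≤ σ * (Λ * (A * σ)) := by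
              refine mul_le_mul_of_nonneg_left ?_ hσ.le
              exact ((hlip z hz y hyδ).1).trans (mul_le_mul_of_nonneg_left h3 hΛ)
          _ = Λ * A * σ ^ 2 := by ring
    exact (ContinuousLinearMap.le_opNorm _ _).trans
      (mul_le_mul (hbd' z hzK₁).2 h6 (norm_nonneg _) hM)
  have b3 : ‖u3‖ ≤ 2 * M * Λ * A * σ ^ 2 := by
    have h5 : fderiv ℂ V y (W y) - fderiv ℂ V z (W z) =
        (fderiv ℂ V y - fderiv ℂ V z) (W y) + fderiv ℂ V z (W y - W z) := by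
      simp only [ContinuousLinearMap.sub_apply, map_sub]
      abel
    have h6 : ‖fderiv ℂ V y (W y) - fderiv ℂ V z (W z)‖ ≤
        (Λ * (A * σ)) * M + M * (Λ * (A * σ)) := by
      rw [h5]
      refine (norm_add_le _ _).trans (add_le_add ?_ ?_)
      · refine (ContinuousLinearMap.le_opNorm _ _).trans ?_
        refine mul_le_mul ?_ (hbd y hyK₁).2 (norm_nonneg _) (by positivity)
        exact ((hlip z hz y hyδ).2.2.1).trans (mul_le_mul_of_nonneg_left h3 hΛ)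
      · refine (ContinuousLinearMap.le_opNorm _ _).trans ?_
        refine mul_le_mul (hbd' z hzK₁).1 ?_ (norm_nonneg _) hM
        exact ((hlip z hz y hyδ).2.1).trans (mul_le_mul_of_nonneg_left h3 hΛ)
    rw [hu3, norm_smul, Real.norm_of_nonneg hσ.le]
    refine (mul_le_mul_of_nonneg_left h6 hσ.le).trans (le_of_eq ?_)
    ring
  have b4 : ‖E‖ ≤ C * (ε' * σ) * M := by
    refine (ContinuousLinearMap.le_opNorm _ _).trans ?_
    exact mul_le_mul hDf (hbd y hyK₁).2 (norm_nonneg _) (by positivity)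
  rw [hdec]
  have hQσ : Q * σ ≤ ε / 2 := by nlinarith
  calc ‖u1 + fderiv ℂ W z u2 + u3 + E‖ ≤ ‖u1‖ + ‖fderiv ℂ W z u2‖ + ‖u3‖ + ‖E‖ :=
        (norm_add_le _ _).trans (add_le_add ((norm_add_le _ _).trans
          (add_le_add (norm_add_le _ _) le_rfl)) le_rfl)
    _ ≤ Λ * A ^ 2 * σ ^ 2 + M * (ε' * σ + Λ * A * σ ^ 2) + 2 * M * Λ * A * σ ^ 2 +
        C * (ε' * σ) * M := by gcongr
    _ = (ε' * (M + C * M)) * σ + (Q * σ) * σ := by
        rw [hQ]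
        ring
    _ ≤ ε / 2 * σ + ε / 2 * σ := by gcongr
    _ = ε * σ := by ring

theorem brl (hLADD : S_LADD) (hLLIM : S_LLIM) (hADAPX : S_ADAPX) (hADL : S_ADL) : S_BRL := by
  intro b D Γ _ g hD V W hV hW
  have hopen := hD.dom.isOpen
  refine hLLIM hD _ ?_ ?_ ?_
  · have h1 := (holo_fderiv hopen hW.1).clm_apply hV.1
    have h2 := (holo_fderiv hopen hV.1).clm_apply hW.1
    exact h1.sub h2
  · intro z hz
    unfold brV
    rw [hV.2.1 z hz, hW.2.1 z hz, map_zero, map_zero, sub_zero]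
  · intro K hK hKc ε hε
    obtain ⟨K', hK', hK'c, ε', hε', σ₀, hσ₀, h1⟩ := hADAPX hD V W hV.1 hW.1 K hK hKc ε hε
    obtain ⟨σ₁, hσ₁, h2⟩ := hV.2.2 K' hK' hK'c ε' hε'
    set σ : ℝ := min σ₀ σ₁ / 2 with hσ
    have hmin : 0 < min σ₀ σ₁ := lt_min hσ₀ hσ₁
    have hσ0 : 0 < σ := by positivity
    have hσa : σ < σ₀ := by
      have := min_le_left σ₀ σ₁
      linarith
    have hσb : σ < σ₁ := by
      have := min_le_right σ₀ σ₁
      linarith
    obtain ⟨γ, hγ⟩ := h2 σ hσ0 hσb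
    have h3 := h1 σ hσ0 hσa γ hγ
    obtain ⟨-, hadd, hsmul⟩ := hLADD hD
    refine ⟨(-σ⁻¹) • (AdV D g γ W + (-1 : ℝ) • W), hsmul _ (hadd _ _ (hADL hD W hW γ)
      (hsmul _ hW _)) _, fun z hz => ?_⟩
    have h4 : ((-σ⁻¹) • (AdV D g γ W + (-1 : ℝ) • W)) z - brV V W z =
        (-σ⁻¹) • (AdV D g γ W z - W z + σ • brV V W z) := by
      rw [Pi.smul_apply, Pi.add_apply, Pi.smul_apply, smul_add (-σ⁻¹) (AdV D g γ W z - W z),
        smul_smul, neg_mul, inv_mul_cancel₀ hσ0.ne']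
      simp only [neg_smul, one_smul, ← sub_eq_add_neg]
    rw [h4, norm_smul, norm_neg, norm_inv, Real.norm_of_nonneg hσ0.le, inv_mul_le_iff₀ hσ0]
    linarith [h3 z hz]

end Pool.Agent.Helper88.Lin
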