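import Pool.Agent.Helper95.Lin.Basics
import Pool.Agent.Helper95.Lin.GoalsA

/-!
# Packet EXT: a nonzero generator of a non-discrete group
-/

open Complex Metric Set Filter Topology MeasureTheory
open scoped ContDiff ComplexConjugate ComplexOrder

namespace Pool.Agent.Helper88.Lin

open Pool.Agent.Helper95.Lin

/-- A sequence of continuous functions which is bounded from some index on is bounded. -/
theorem bound_all {n m : ℕ} {U K : Set (Cn n)} (hK : K ⊆ U) (hKc : IsCompact K)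
    {f : ℕ → Cn n → Cn m} (hf : ∀ k, ContinuousOn (f k) U) {C : ℝ} {n₀ : ℕ}
    (h : ∀ k, n₀ ≤ k → ∀ z ∈ K, ‖f k z‖ ≤ C) : ∃ C' : ℝ, ∀ k, ∀ z ∈ K, ‖f k z‖ ≤ C' := by
  have h1 : ∀ k, ∃ c : ℝ, ∀ z ∈ K, ‖f k z‖ ≤ c := fun k =>
    hKc.exists_bound_of_continuousOn ((hf k).mono hK)
  choose c hc using h1
  refine ⟨|C| + ∑ k ∈ Finset.range n₀, |c k|, fun k z hz => ?_⟩
  have hs : 0 ≤ ∑ k ∈ Finset.range n₀, |c k| := Finset.sum_nonneg fun _ _ => abs_nonneg _
  rcases le_or_gt n₀ k with hk | hk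
  · have h2 := (h k hk z hz).trans (le_abs_self C)
    linarith
  · have h2 := (hc k z hz).trans (le_abs_self _)
    have h3 : |c k| ≤ ∑ k ∈ Finset.range n₀, |c k| :=
      Finset.single_le_sum (f := fun k => |c k|) (fun _ _ => abs_nonneg _)
        (Finset.mem_range.mpr hk)
    have h4 := abs_nonneg C
    linarith

theorem ext (hM : S_MONTEL) (hI : S_IDT) (hC : S_CMP) (hS : S_SCALE) : S_EXT := by
  classical
  intro b D Γ _ g hD K₀ hK₀ hK₀c hint hsmall
  have hopen : IsOpen D := hD.dom.isOpen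
  have h1 : ∀ n : ℕ, ∃ γ, (∃ z ∈ D, g γ z ≠ z) ∧ ∀ z ∈ K₀, ‖g γ z - z‖ ≤ 1 / ((n : ℝ) + 1) :=
    fun n => hsmall _ (by positivity)
  choose γ hγ1 hγ2 using h1
  have hK₀ne : K₀.Nonempty := hint.mono interior_subset
  have hcont : ∀ n, ContinuousOn (fun z => g (γ n) z - z) D := fun n =>
    ((hD.act.holo (γ n)).continuousOn).sub continuousOn_id
  have h2 : ∀ n, ∃ z ∈ K₀, ∀ y ∈ K₀, ‖g (γ n) y - y‖ ≤ ‖g (γ n) z - z‖ := fun n => by
    obtain ⟨z, hz, hmax⟩ := hK₀c.exists_isMaxOn hK₀ne ((hcont n).mono hK₀).norm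
    exact ⟨z, hz, fun y hy => hmax hy⟩
  choose zz hzz hmax using h2
  set τ : ℕ → ℝ := fun n => ‖g (γ n) (zz n) - zz n‖ with hτ
  have hτ0 : ∀ n, 0 < τ n := by
    intro n
    by_contra hcon
    push Not at hcon
    obtain ⟨z, hz, hne⟩ := hγ1 n
    apply hne
    have h3 : ∀ y ∈ K₀, g (γ n) y - y = 0 := fun y hy => by
      rw [← norm_le_zero_iff]
      exact (hmax n y hy).trans hcon
    obtain ⟨z₀, hz₀⟩ := hint
    have h4 : ∀ᶠ y in 𝓝 z₀, g (γ n) y - y = 0 := by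
      filter_upwards [isOpen_interior.mem_nhds hz₀] with y hy
      exact h3 y (interior_subset hy)
    have h5 := hI D hopen hD.dom.conn.isPreconnected (fun y => g (γ n) y - y)
      ((hD.act.holo (γ n)).sub differentiableOn_id) z₀ (hK₀ (interior_subset hz₀)) h4 z hz
    exact sub_eq_zero.mp h5
  have hτ1 : ∀ n, τ n ≤ 1 / ((n : ℝ) + 1) := fun n => hγ2 n _ (hzz n)
  have hτt : Tendsto τ atTop (𝓝 0) :=
    squeeze_zero (fun n => (hτ0 n).le) hτ1 tendsto_one_div_add_atTop_nhds_zero_nat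
  set f : ℕ → Cn b → Cn b := fun n z => (τ n)⁻¹ • (g (γ n) z - z) with hf
  have hfd : ∀ n, DifferentiableOn ℂ (f n) D := fun n =>
    ((hD.act.holo (γ n)).sub differentiableOn_id).const_smul ((τ n)⁻¹)
  have hfb : ∀ K ⊆ D, IsCompact K → ∃ C : ℝ, ∀ k, ∀ z ∈ K, ‖f k z‖ ≤ C := by
    intro K hK hKc
    obtain ⟨C, η, hC0, hη, hcmp⟩ := hC hD K₀ hK₀ hK₀c hint K hK hKc
    obtain ⟨n₀, hn₀⟩ := eventually_atTop.mp (hτt.eventually_le_const hη)
    refine bound_all hK hKc (fun k => (hfd k).continuousOn) (C := C) (n₀ := n₀) ?_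
    intro k hk z hz
    have h3 := hcmp (γ k) (τ k) (hn₀ k hk) (hmax k) z hz
    rw [hf]
    simp only
    rw [norm_smul, norm_inv, Real.norm_of_nonneg (hτ0 k).le, inv_mul_le_iff₀ (hτ0 k)]
    linarith
  obtain ⟨φ, hφ, F, hF, hconv⟩ := hM D hopen f hfd hfb
  have hmono : Tendsto φ atTop atTop := hφ.tendsto_atTop
  -- the limit is not zero
  have hne : ∃ z ∈ D, F z ≠ 0 := by
    obtain ⟨k, hk⟩ := (hconv K₀ hK₀ hK₀c (1 / 2) (by norm_num)).exists
    refine ⟨zz (φ k), hK₀ (hzz _), fun h0 => ?_⟩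
    have h3 := hk (zz (φ k)) (hzz _)
    rw [h0, sub_zero, hf] at h3
    simp only at h3
    rw [norm_smul, norm_inv, Real.norm_of_nonneg (hτ0 _).le] at h3
    have h4 : (τ (φ k))⁻¹ * ‖g (γ (φ k)) (zz (φ k)) - zz (φ k)‖ = 1 :=
      inv_mul_cancel₀ (hτ0 _).ne'
    rw [h4] at h3
    norm_num at h3
  refine ⟨D.indicator F, ?_, ?_⟩
  · refine hS hD (γ ∘ φ) (τ ∘ φ) (D.indicator F) (fun k => hτ0 _) (hτt.comp hmono) ?_ ?_ ?_
    · exact hF.congr fun z hz => Set.indicator_of_mem hz F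
    · exact fun z hz => Set.indicator_of_notMem hz F
    · intro K hK hKc ε hε
      filter_upwards [hconv K hK hKc ε hε] with k hk z hz
      rw [Set.indicator_of_mem (hK hz)]
      simp only [Function.comp_apply]
      have h3 : g (γ (φ k)) z - z - τ (φ k) • F z = τ (φ k) • (f (φ k) z - F z) := by
        rw [hf]
        simp only
        rw [smul_sub, smul_smul, mul_inv_cancel₀ (hτ0 _).ne', one_smul]
      rw [h3, norm_smul, Real.norm_of_nonneg (hτ0 _).le, mul_comm]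
      exact mul_le_mul_of_nonneg_right (hk z hz) (hτ0 _).le
  · obtain ⟨z, hz, hz'⟩ := hne
    exact ⟨z, hz, by rwa [Set.indicator_of_mem hz]⟩

end Pool.Agent.Helper88.Lin
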