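import Pool.Agent.Helper95.Lin.Basics
import Pool.Agent.Helper95.Lin.GoalsA
import Pool.Agent.Helper95.Lin.GoalsI

/-!
# Packets DISC and FIBC
-/

open Complex Metric Set Filter Topology MeasureTheory
open scoped ContDiff ComplexConjugate ComplexOrder

namespace Pool.Agent.Helper88.Lin

open Pool.Agent.Helper95.Lin

theorem disc (hE : S_EXT) : S_DISC := by
  intro b D Γ _ g hD hno
  obtain ⟨z₀, hz₀⟩ := hD.dom.conn.nonempty
  obtain ⟨r, hr, hrD⟩ := Metric.isOpen_iff.mp hD.dom.isOpen z₀ hz₀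
  have hK : closedBall z₀ (r / 2) ⊆ D := (closedBall_subset_ball (by linarith)).trans hrD
  have hKc : IsCompact (closedBall z₀ (r / 2)) := isCompact_closedBall _ _
  have hint : (interior (closedBall z₀ (r / 2))).Nonempty :=
    ⟨z₀, ball_subset_interior_closedBall (mem_ball_self (by linarith))⟩
  refine ⟨closedBall z₀ (r / 2), hK, hKc, ?_⟩
  by_contra hcon
  push Not at hcon
  refine hno (hE hD _ hK hKc hint fun η hη => ?_)
  obtain ⟨γ, h1, z, hz, h2⟩ := hcon η hη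
  exact ⟨γ, ⟨z, hz, h2⟩, h1⟩

theorem fibc (hF : S_FINMAP) : S_FIBC := by
  classical
  intro b D Γ _ g a β hL hdisc z hz
  obtain ⟨K, hK, hKc, R, hR⟩ := hL.coc
  obtain ⟨S, hS⟩ := hF hL.base hdisc (K ∪ {z}) (union_subset hK (singleton_subset_iff.mpr hz))
    (hKc.union isCompact_singleton)
  refine ⟨∑ σ ∈ S, |(R + ‖β σ z‖) / ‖a σ z‖|, fun w => ?_⟩
  obtain ⟨γ, hγ1, hγ2⟩ := hR z hz w
  obtain ⟨σ, hσ, hσγ⟩ := hS γ ⟨z, Or.inr rfl, Or.inl hγ1⟩
  have htriv : ∀ y ∈ D, g (σ⁻¹ * γ) y = y := fun y hy => by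
    rw [hL.base.act.mul _ _ y hy, hσγ y hy, hL.base.act.inv_left _ hy]
  refine ⟨σ⁻¹ * γ, htriv, ?_⟩
  have e1 : a γ z = a σ z * a (σ⁻¹ * γ) z := by
    have := hL.a_mul σ (σ⁻¹ * γ) z hz
    rw [htriv z hz, mul_inv_cancel_left] at this
    exact this
  have e2 : β γ z = a σ z * β (σ⁻¹ * γ) z + β σ z := by
    have := hL.b_mul σ (σ⁻¹ * γ) z hz
    rw [htriv z hz, mul_inv_cancel_left] at this
    exact this
  have hpos : 0 < ‖a σ z‖ := norm_pos_iff.mpr (hL.a_ne σ z hz)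
  have h1 : ‖a (σ⁻¹ * γ) z * w + β (σ⁻¹ * γ) z‖ ≤ (R + ‖β σ z‖) / ‖a σ z‖ := by
    rw [le_div_iff₀ hpos, ← norm_mul]
    have e3 : (a (σ⁻¹ * γ) z * w + β (σ⁻¹ * γ) z) * a σ z = (a γ z * w + β γ z) - β σ z := by
      rw [e1, e2]
      ring
    rw [e3]
    exact (norm_sub_le _ _).trans (add_le_add hγ2 le_rfl)
  exact (h1.trans (le_abs_self _)).trans
    (Finset.single_le_sum (f := fun σ => |(R + ‖β σ z‖) / ‖a σ z‖|)
      (fun _ _ => abs_nonneg _) hσ)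

end Pool.Agent.Helper88.Lin
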