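import Pool.Agent.Helper95.Lin.Basics
import Pool.Agent.Helper95.Lin.GoalsA
import Pool.Agent.Helper95.Lin.GoalsI

/-!
# Packet FINMAP: finitely many maps meet a compact set
-/

open Complex Metric Set Filter Topology MeasureTheory
open scoped ContDiff ComplexConjugate ComplexOrder

namespace Pool.Agent.Helper88.Lin

open Pool.Agent.Helper95.Lin

theorem finmap (hM : S_MONTEL) (hST : S_STAY) (hCAU : S_CAU) : S_FINMAP := by
  classical
  intro b D Γ _ g hD hdisc K hK hKc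
  by_contra hcon
  push Not at hcon
  obtain ⟨K₀, hK₀, hK₀c, η, hη, hid⟩ := hdisc
  obtain ⟨γ, hγ1, hγ2⟩ := exists_seq_of_forall_finset_exists
    (fun γ : Γ => ∃ z ∈ K, g γ z ∈ K) (fun σ γ : Γ => ∃ z ∈ D, g γ z ≠ g σ z)
    (fun S _ => by
      obtain ⟨γ, h1, h2⟩ := hcon S
      exact ⟨γ, h1, h2⟩)
  have hopen : IsOpen D := hD.dom.isOpen
  obtain ⟨R, hR0, hR⟩ := hD.dom.exists_norm_le
  -- all `γ n` map `K ∪ K₀` into a compact set
  obtain ⟨K', hK', hK'c, hstay⟩ := hST hD (K ∪ K₀) (union_subset hK hK₀) (hKc.union hK₀c)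
  have hmap : ∀ n, ∀ z ∈ K₀, g (γ n) z ∈ K' := fun n z hz => by
    refine hstay (γ n) ?_ z (Or.inr hz)
    obtain ⟨y, hy, hy'⟩ := hγ1 n
    exact ⟨y, Or.inl hy, Or.inl hy'⟩
  -- Lipschitz bound of the inverses
  obtain ⟨K4, hK4, -, -, C, hC, hlip⟩ := hCAU (n := b) (m := b) D hopen K' hK' hK'c
  -- convergent subsequence
  obtain ⟨φ, hφ, F, -, hconv⟩ := hM D hopen (fun n => g (γ n)) (fun n => hD.act.holo (γ n))
    (fun L hL _ => ⟨R, fun k z hz => hR _ (hD.act.maps (γ k) z (hL hz))⟩)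
  set ε : ℝ := η / (2 * (C * R + 1)) with hε
  have hε0 : 0 < ε := by positivity
  obtain ⟨k₀, hk₀⟩ := eventually_atTop.mp (hconv K₀ hK₀ hK₀c ε hε0)
  have h1 := hk₀ k₀ le_rfl
  have h2 := hk₀ (k₀ + 1) (Nat.le_succ k₀)
  have hlt : φ k₀ < φ (k₀ + 1) := hφ (Nat.lt_succ_self k₀)
  obtain ⟨z, hz, hne⟩ := hγ2 _ _ hlt
  apply hne
  have h3 : ∀ y ∈ K₀, ‖g ((γ (φ (k₀ + 1)))⁻¹ * γ (φ k₀)) y - y‖ ≤ η := by
    intro y hy
    have hyD := hK₀ hy
    have e1 : g ((γ (φ (k₀ + 1)))⁻¹ * γ (φ k₀)) y - y =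
        g (γ (φ (k₀ + 1)))⁻¹ (g (γ (φ k₀)) y) -
          g (γ (φ (k₀ + 1)))⁻¹ (g (γ (φ (k₀ + 1))) y) := by
      rw [hD.act.mul _ _ y hyD, hD.act.inv_left _ hyD]
    rw [e1]
    have h4 := (hlip (g (γ (φ (k₀ + 1)))⁻¹) (hD.act.holo _) R
      (fun w hw => hR _ (hD.act.maps _ w (hK4 hw)))).2 _ (hmap (φ k₀) y hy) _
        (hmap (φ (k₀ + 1)) y hy)
    refine h4.trans ?_
    have h5 : ‖g (γ (φ k₀)) y - g (γ (φ (k₀ + 1))) y‖ ≤ 2 * ε := by
      have e2 : g (γ (φ k₀)) y - g (γ (φ (k₀ + 1))) y =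
          (g (γ (φ k₀)) y - F y) - (g (γ (φ (k₀ + 1))) y - F y) := by abel
      rw [e2]
      refine (norm_sub_le _ _).trans ?_
      have := h1 y hy
      have := h2 y hy
      linarith
    have hCR : 0 ≤ C * R := by positivity
    calc C * R * ‖g (γ (φ k₀)) y - g (γ (φ (k₀ + 1))) y‖ ≤ C * R * (2 * ε) :=
          mul_le_mul_of_nonneg_left h5 hCR
      _ ≤ (C * R + 1) * (2 * ε) := by nlinarith
      _ = η := by
          rw [hε]
          field_simp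
  have h6 := hid _ h3 z hz
  rw [hD.act.mul _ _ z hz] at h6
  rw [← hD.act.inv_right (γ (φ (k₀ + 1))) (hD.act.maps (γ (φ k₀)) z hz), h6]

end Pool.Agent.Helper88.Lin
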