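import Pool.Agent.Helper95.Lin.Basics
import Pool.Agent.Helper95.Lin.GoalsA

/-!
# Packets LADD, ADAPX, BRL
-/

open Complex Metric Set Filter Topology MeasureTheory
open scoped ContDiff ComplexConjugate ComplexOrder

namespace Pool.Agent.Helper88.Lin

open Pool.Agent.Helper95.Lin

/-- A compact neighbourhood. -/
theorem exists_nbhd {b : ℕ} {D K : Set (Cn b)} (hD : IsOpen D) (hK : K ⊆ D) (hKc : IsCompact K) :
    ∃ K₁ ⊆ D, IsCompact K₁ ∧ K ⊆ K₁ ∧ ∃ δ > 0, ∀ x ∈ K, ∀ y, ‖y - x‖ ≤ δ → y ∈ K₁ := by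
  obtain ⟨δ, hδ, h⟩ := hKc.exists_cthickening_subset_open hD hK
  refine ⟨cthickening δ K, h, hKc.cthickening, self_subset_cthickening K, δ, hδ,
    fun x hx y hy => ?_⟩
  exact mem_cthickening_of_dist_le y x δ K hx (by rwa [dist_eq_norm])

/-- Holomorphic maps are bounded on compact sets. -/
theorem exists_bd {b : ℕ} {F : Type*} [NormedAddCommGroup F] [NormedSpace ℂ F] {D K : Set (Cn b)}
    (hK : K ⊆ D) (hKc : IsCompact K) {f : Cn b → F} (hf : DifferentiableOn ℂ f D) :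
    ∃ M : ℝ, 0 ≤ M ∧ ∀ x ∈ K, ‖f x‖ ≤ M := by
  obtain ⟨M, hM⟩ := hKc.exists_bound_of_continuousOn (hf.continuousOn.mono hK)
  exact ⟨|M|, abs_nonneg _, fun x hx => (hM x hx).trans (le_abs_self _)⟩

/-- Holomorphic maps are Lipschitz on compact sets, in the form: bounded derivative near the
compact set gives a Lipschitz estimate for close points. -/
theorem exists_lip {b : ℕ} {F : Type} [NormedAddCommGroup F] [NormedSpace ℂ F] [CompleteSpace F]
    {D K : Set (Cn b)} (hD : IsOpen D) (hK : K ⊆ D) (hKc : IsCompact K) {f : Cn b → F}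
    (hf : DifferentiableOn ℂ f D) :
    ∃ L : ℝ, 0 ≤ L ∧ ∃ δ > 0, ∀ x ∈ K, ∀ y, ‖y - x‖ ≤ δ → ‖f y - f x‖ ≤ L * ‖y - x‖ := by
  obtain ⟨K₁, hK₁, hK₁c, -, δ, hδ, hnb⟩ := exists_nbhd hD hK hKc
  obtain ⟨M, hM, hMb⟩ := exists_bd hK₁ hK₁c (holo_fderiv hD hf)
  refine ⟨M, hM, δ, hδ, fun x hx y hy => ?_⟩
  have hsub : closedBall x δ ⊆ K₁ := fun z hz => hnb x hx z (by
    rw [← dist_eq_norm]
    exact hz)
  refine (convex_closedBall x δ).norm_image_sub_le_of_norm_fderiv_le (𝕜 := ℂ) (fun z hz => ?_)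
    (fun z hz => hMb z (hsub hz)) (mem_closedBall_self hδ.le) ?_
  · exact (hf z (hK₁ (hsub hz))).differentiableAt (hD.mem_nhds (hK₁ (hsub hz)))
  · rw [mem_closedBall, dist_eq_norm]
    exact hy

theorem inL_zero {b : ℕ} {D : Set (Cn b)} {Γ : Type} [Group Γ] {g : Γ → Cn b → Cn b}
    (hD : HAct D g) : InL D g (fun _ => 0) := by
  refine ⟨differentiableOn_const _, fun _ _ => rfl, fun K hK _ ε hε => ⟨1, one_pos,
    fun σ hσ _ => ⟨1, fun z hz => ?_⟩⟩⟩
  rw [hD.act.one z (hK hz)]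
  simp only [sub_self, smul_zero, norm_zero]
  positivity

theorem inL_add {b : ℕ} {D : Set (Cn b)} {Γ : Type} [Group Γ] {g : Γ → Cn b → Cn b}
    (hD : HAct D g) {V W : Cn b → Cn b} (hV : InL D g V) (hW : InL D g W) :
    InL D g (V + W) := by
  have hopen := hD.dom.isOpen
  refine ⟨hV.1.add hW.1, fun z hz => by simp [hV.2.1 z hz, hW.2.1 z hz], fun K hK hKc ε hε => ?_⟩
  obtain ⟨K₁, hK₁, hK₁c, -, δ, hδ, hnb⟩ := exists_nbhd hopen hK hKc
  obtain ⟨L, hL, δ', hδ', hlip⟩ := exists_lip hopen hK hKc hV.1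
  obtain ⟨M, hM, hMb⟩ := exists_bd hK hKc hW.1
  obtain ⟨σ₁, hσ₁, h1⟩ := hV.2.2 K₁ hK₁ hK₁c (ε / 4) (by positivity)
  obtain ⟨σ₂, hσ₂, h2⟩ := hW.2.2 K hK hKc (ε / 4) (by positivity)
  set A : ℝ := M + ε / 4 with hA
  have hA0 : 0 < A := by positivity
  refine ⟨min (min σ₁ σ₂) (min (min δ δ' / A) (ε / (4 * (L * A + 1)))), ?_, fun σ hσ hσ' => ?_⟩
  · have := lt_min hδ hδ'
    refine lt_min (lt_min hσ₁ hσ₂) (lt_min (by positivity) (by positivity))
  · have e1 : σ < σ₁ := hσ'.trans_le ((min_le_left _ _).trans (min_le_left _ _))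
    have e2 : σ < σ₂ := hσ'.trans_le ((min_le_left _ _).trans (min_le_right _ _))
    have e3 : σ < min δ δ' / A := hσ'.trans_le ((min_le_right _ _).trans (min_le_left _ _))
    have e4 : σ < ε / (4 * (L * A + 1)) :=
      hσ'.trans_le ((min_le_right _ _).trans (min_le_right _ _))
    rw [lt_div_iff₀ hA0] at e3
    rw [lt_div_iff₀ (by positivity)] at e4
    obtain ⟨γ, hγ⟩ := h1 σ hσ e1
    obtain ⟨γ', hγ'⟩ := h2 σ hσ e2
    refine ⟨γ * γ', fun x hx => ?_⟩
    have hxD := hK hx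
    set y := g γ' x with hy
    have h3 : ‖y - x‖ ≤ A * σ := by
      have h4 : y - x = (y - x - σ • W x) + σ • W x := by abel
      rw [h4]
      refine (norm_add_le _ _).trans ?_
      have h5 : ‖σ • W x‖ ≤ σ * M := by
        rw [norm_smul, Real.norm_of_nonneg hσ.le]
        exact mul_le_mul_of_nonneg_left (hMb x hx) hσ.le
      have h6 := hγ' x hx
      rw [hA]
      linarith
    have hyδ : ‖y - x‖ ≤ δ := h3.trans (by
      have := min_le_left δ δ'
      linarith)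
    have hyδ' : ‖y - x‖ ≤ δ' := h3.trans (by
      have := min_le_right δ δ'
      linarith)
    have hyK : y ∈ K₁ := hnb x hx y hyδ
    rw [hD.act.mul γ γ' x hxD, ← hy]
    have h7 : g γ y - x - σ • (V + W) x =
        (g γ y - y - σ • V y) + (y - x - σ • W x) + σ • (V y - V x) := by
      rw [Pi.add_apply, smul_add, smul_sub]
      abel
    rw [h7]
    have h8 : ‖σ • (V y - V x)‖ ≤ σ * (L * (A * σ)) := by
      rw [norm_smul, Real.norm_of_nonneg hσ.le]
      exact mul_le_mul_of_nonneg_left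
        ((hlip x hx y hyδ').trans (mul_le_mul_of_nonneg_left h3 hL)) hσ.le
    have h9 : σ * (L * (A * σ)) ≤ ε / 4 * σ := by
      have : L * (A * σ) ≤ ε / 4 := by nlinarith
      nlinarith
    calc _ ≤ ‖(g γ y - y - σ • V y) + (y - x - σ • W x)‖ + ‖σ • (V y - V x)‖ := norm_add_le _ _
      _ ≤ (‖g γ y - y - σ • V y‖ + ‖y - x - σ • W x‖) + ‖σ • (V y - V x)‖ :=
          add_le_add (norm_add_le _ _) le_rfl
      _ ≤ (ε / 4 * σ + ε / 4 * σ) + ε / 4 * σ :=
          add_le_add (add_le_add (hγ y hyK) (hγ' x hx)) (h8.trans h9)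
      _ ≤ ε * σ := by nlinarith

theorem inL_neg (hPWR : S_PWR) {b : ℕ} {D : Set (Cn b)} {Γ : Type} [Group Γ]
    {g : Γ → Cn b → Cn b} (hD : HAct D g) {V : Cn b → Cn b} (hV : InL D g V) :
    InL D g (-V) := by
  have hopen := hD.dom.isOpen
  refine ⟨hV.1.neg, fun z hz => by simp [hV.2.1 z hz], fun K hK hKc ε hε => ?_⟩
  obtain ⟨K₁, hK₁, hK₁c, hKK₁, δ, hδ, hnb⟩ := exists_nbhd hopen hK hKc
  obtain ⟨L, hL, δ', hδ', hlip⟩ := exists_lip hopen hK hKc hV.1
  obtain ⟨M, hM, hMb⟩ := exists_bd hK hKc hV.1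
  obtain ⟨σ₁, hσ₁, h1⟩ := hV.2.2 K₁ hK₁ hK₁c (ε / 2) (by positivity)
  obtain ⟨Cp, ρ, hCp, hρ, hpw⟩ := hPWR hD K hK hKc
  set B : ℝ := M + ε / 2 with hB
  have hB0 : 0 < B := by positivity
  set A : ℝ := Cp * B with hA
  have hA0 : 0 ≤ A := by positivity
  refine ⟨min (min σ₁ (ρ / B)) (min (min δ δ' / (A + 1)) (ε / (2 * (L * A + 1)))), ?_,
    fun σ hσ hσ' => ?_⟩
  · have := lt_min hδ hδ'
    refine lt_min (lt_min hσ₁ (by positivity)) (lt_min (by positivity) (by positivity))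
  · have e1 : σ < σ₁ := hσ'.trans_le ((min_le_left _ _).trans (min_le_left _ _))
    have e2 : σ < ρ / B := hσ'.trans_le ((min_le_left _ _).trans (min_le_right _ _))
    have e3 : σ < min δ δ' / (A + 1) := hσ'.trans_le ((min_le_right _ _).trans (min_le_left _ _))
    have e4 : σ < ε / (2 * (L * A + 1)) :=
      hσ'.trans_le ((min_le_right _ _).trans (min_le_right _ _))
    rw [lt_div_iff₀ hB0] at e2
    rw [lt_div_iff₀ (by positivity)] at e3
    rw [lt_div_iff₀ (by positivity)] at e4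
    obtain ⟨γ, hγ⟩ := h1 σ hσ e1
    refine ⟨γ⁻¹, fun x hx => ?_⟩
    have hxD := hK hx
    have h2 : ‖g γ x - x‖ ≤ B * σ := by
      have h4 : g γ x - x = (g γ x - x - σ • V x) + σ • V x := by abel
      rw [h4]
      refine (norm_add_le _ _).trans ?_
      have h5 : ‖σ • V x‖ ≤ σ * M := by
        rw [norm_smul, Real.norm_of_nonneg hσ.le]
        exact mul_le_mul_of_nonneg_left (hMb x hx) hσ.le
      have h6 := hγ x (hKK₁ hx)
      rw [hB]
      linarith
    set y := g γ⁻¹ x with hy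
    have h3 : ‖y - x‖ ≤ A * σ := by
      have := (hpw γ (B * σ) (by linarith) x hx h2).1
      rw [hA]
      linarith
    have hσA : A * σ ≤ min δ δ' := by nlinarith
    have hyδ : ‖y - x‖ ≤ δ := h3.trans (hσA.trans (min_le_left _ _))
    have hyδ' : ‖y - x‖ ≤ δ' := h3.trans (hσA.trans (min_le_right _ _))
    have hyK : y ∈ K₁ := hnb x hx y hyδ
    have hgy : g γ y = x := by rw [hy, hD.act.inv_right γ hxD]
    have h7 : y - x - σ • (-V) x = -(g γ y - y - σ • V y) - σ • (V y - V x) := by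
      rw [hgy, Pi.neg_apply, smul_sub, smul_neg]
      abel
    rw [h7]
    have h8 : ‖σ • (V y - V x)‖ ≤ σ * (L * (A * σ)) := by
      rw [norm_smul, Real.norm_of_nonneg hσ.le]
      exact mul_le_mul_of_nonneg_left
        ((hlip x hx y hyδ').trans (mul_le_mul_of_nonneg_left h3 hL)) hσ.le
    have h9 : σ * (L * (A * σ)) ≤ ε / 2 * σ := by
      have : L * (A * σ) ≤ ε / 2 := by nlinarith
      nlinarith
    calc _ ≤ ‖-(g γ y - y - σ • V y)‖ + ‖σ • (V y - V x)‖ := norm_sub_le _ _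
      _ = ‖g γ y - y - σ • V y‖ + ‖σ • (V y - V x)‖ := by rw [norm_neg]
      _ ≤ ε / 2 * σ + ε / 2 * σ := add_le_add (hγ y hyK) (h8.trans h9)
      _ = ε * σ := by ring

theorem inL_smul_pos {b : ℕ} {D : Set (Cn b)} {Γ : Type} [Group Γ]
    {g : Γ → Cn b → Cn b} {V : Cn b → Cn b} (hV : InL D g V) {r : ℝ}
    (hr : 0 < r) : InL D g (r • V) := by
  refine ⟨hV.1.const_smul r, fun z hz => by simp [hV.2.1 z hz], fun K hK hKc ε hε => ?_⟩
  obtain ⟨σ₁, hσ₁, h1⟩ := hV.2.2 K hK hKc (ε / r) (by positivity)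
  refine ⟨σ₁ / r, by positivity, fun σ hσ hσ' => ?_⟩
  rw [lt_div_iff₀ hr] at hσ'
  obtain ⟨γ, hγ⟩ := h1 (σ * r) (by positivity) hσ'
  refine ⟨γ, fun z hz => ?_⟩
  have h2 := hγ z hz
  rw [mul_smul] at h2
  refine h2.trans (le_of_eq ?_)
  field_simp

theorem ladd (hPWR : S_PWR) : S_LADD := by
  intro b D Γ _ g hD
  refine ⟨inL_zero hD, fun V W => inL_add hD, fun V hV r => ?_⟩
  rcases lt_trichotomy r 0 with hr | hr | hr
  · have h1 := inL_smul_pos (inL_neg hPWR hD hV) (neg_pos.mpr hr)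
    rwa [smul_neg, neg_smul, neg_neg] at h1
  · rw [hr, zero_smul]
    exact inL_zero hD
  · exact inL_smul_pos hV hr

end Pool.Agent.Helper88.Lin
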